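import Pool.Agent.H30.VGH.Targets2

/-!
Module DEX: derivations with prescribed values on algebraically independent elements.
-/

set_option autoImplicit false

noncomputable section

open Module MvPolynomial

namespace Pool.Agent.H33.VGH

open Pool.Agent.H30.VGH

open TensorProduct in
theorem exists_der {L : Type} [Field L] [CharZero L] {t : Type} {v : t → L}
    (hb : IsTranscendenceBasis ℚ v) (w : t → L) :
    ∃ D : Derivation ℚ L L, ∀ i, D (v i) = w i := by
  let alg : Algebra (MvPolynomial t ℚ) L := (aeval v).toAlgebra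
  have halg : ∀ p : MvPolynomial t ℚ, algebraMap (MvPolynomial t ℚ) L p = aeval v p := fun p => rfl
  have st : IsScalarTower ℚ (MvPolynomial t ℚ) L := IsScalarTower.of_algebraMap_eq fun q => by
    rw [halg, MvPolynomial.algebraMap_eq, aeval_C]
  have hinj : Function.Injective (algebraMap (MvPolynomial t ℚ) L) := hb.1
  have hf : FaithfulSMul (MvPolynomial t ℚ) L := (faithfulSMul_iff_algebraMap_injective _ _).2 hinj
  have hal : Algebra.IsAlgebraic (MvPolynomial t ℚ) L := by
    have h1 := hb.isAlgebraic
    exact h1.of_ringHom_of_comp_eq (hb.1.aevalEquiv : MvPolynomial t ℚ ≃+* _) (RingHom.id L)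
      (RingEquiv.surjective _) Function.injective_id (by
        ext p
        · simp
        · exact hb.1.algebraMap_aevalEquiv _)
  let algF : Algebra (FractionRing (MvPolynomial t ℚ)) L := FractionRing.liftAlgebra _ _
  have stF : IsScalarTower (MvPolynomial t ℚ) (FractionRing (MvPolynomial t ℚ)) L :=
    FractionRing.isScalarTower_liftAlgebra _ _
  have halF : Algebra.IsAlgebraic (FractionRing (MvPolynomial t ℚ)) L :=
    (IsFractionRing.comap_isAlgebraic_iff (A := MvPolynomial t ℚ)
      (K := FractionRing (MvPolynomial t ℚ)) (C := L)).1 hal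
  have et1 : Algebra.FormallyEtale (MvPolynomial t ℚ) (FractionRing (MvPolynomial t ℚ)) :=
    Algebra.FormallyEtale.of_isLocalization (nonZeroDivisors (MvPolynomial t ℚ))
  have et2 : Algebra.FormallyEtale (FractionRing (MvPolynomial t ℚ)) L :=
    Algebra.FormallyEtale.of_isSeparable _ _
  have et : Algebra.FormallyEtale (MvPolynomial t ℚ) L :=
    Algebra.FormallyEtale.comp (MvPolynomial t ℚ) (FractionRing (MvPolynomial t ℚ)) L
  let D0 : Derivation ℚ (MvPolynomial t ℚ) L := mkDerivation ℚ w
  let l : L ⊗[MvPolynomial t ℚ] (Ω[MvPolynomial t ℚ⁄ℚ]) →ₗ[L] L :=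
    D0.liftKaehlerDifferential.liftBaseChange L
  let e := KaehlerDifferential.tensorKaehlerEquivOfFormallyEtale ℚ (MvPolynomial t ℚ) L
  refine ⟨(l ∘ₗ e.symm.toLinearMap).compDer (KaehlerDifferential.D ℚ L), fun i => ?_⟩
  have h2 : v i = algebraMap (MvPolynomial t ℚ) L (X i) := by rw [halg, aeval_X]
  change l (e.symm (KaehlerDifferential.D ℚ L (v i))) = w i
  rw [h2]
  rw [KaehlerDifferential.tensorKaehlerEquivOfFormallyEtale_symm_D_algebraMap]
  rw [LinearMap.liftBaseChange_tmul, one_smul, Derivation.liftKaehlerDifferential_comp_D]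
  exact mkDerivation_X ℚ w i

/-- target DEX of the board -/
theorem pf_DEX : T_DEX := by
  intro L _ _ ι x hx w
  obtain ⟨t, hst, ht⟩ := exists_isTranscendenceBasis_superset hx.to_subtype_range
  have hinj : Function.Injective x := hx.injective
  classical
  obtain ⟨D, hD⟩ := exists_der ht (fun r : t => if h : ∃ i, x i = r.1 then w h.choose else 0)
  refine ⟨D.restrictScalars ℤ, fun i => ?_⟩
  have := hD ⟨x i, hst ⟨i, rfl⟩⟩
  change D (x i) = w i
  rw [show D (x i) = _ from this]
  have hex : ∃ j, x j = x i := ⟨i, rfl⟩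
  rw [dif_pos hex]
  congr 1
  exact hinj hex.choose_spec

end Pool.Agent.H33.VGH
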